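import Pool.Agent.helper22.PD.Mertens

/-!
# Lower bound for `∑ 1/p` over `(k, n]`
-/

namespace Pool.Agent.helper22.PD

open Finset Pool.Agent.Lib.PrimeSums

lemma lower_A : ∃ C : ℝ, 0 < C ∧ ∀ m : ℕ, 2 ≤ m →
    Real.log m - C ≤ ∑ p ∈ Nat.primesLE m, 1 / (p : ℝ) * Real.log p := by
  obtain ⟨T₀, hT₀⟩ := mertens_lower
  set T := max T₀ 2 with hT
  have hT2 : 2 ≤ T := le_max_right _ _
  have hlogT : 0 < Real.log T := Real.log_pos (by exact_mod_cast (by omega : 1 < T))
  refine ⟨Real.log T + 8, by linarith, ?_⟩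
  intro m hm
  rcases Nat.lt_or_ge m T with h | h
  · have h1 : 0 ≤ ∑ p ∈ Nat.primesLE m, 1 / (p : ℝ) * Real.log p := by
      refine sum_nonneg fun p hp => ?_
      have := (Nat.mem_primesLE.mp hp).2.pos
      exact mul_nonneg (by positivity) (Real.log_nonneg (by exact_mod_cast this))
    have h2 : Real.log m ≤ Real.log T :=
      Real.log_le_log (by exact_mod_cast (by omega : 0 < m)) (by exact_mod_cast h.le)
    linarith
  · have h1 := hT₀ T (le_max_left _ _) m h
    have h2 : ∑ p ∈ (Ioc T m).filter Nat.Prime, Real.log p / p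
        ≤ ∑ p ∈ Nat.primesLE m, 1 / (p : ℝ) * Real.log p := by
      have e : ∑ p ∈ (Ioc T m).filter Nat.Prime, Real.log p / p
          = ∑ p ∈ (Ioc T m).filter Nat.Prime, 1 / (p : ℝ) * Real.log p :=
        sum_congr rfl fun p _ => by ring
      rw [e]
      refine sum_le_sum_of_subset_of_nonneg ?_ ?_
      · intro p hp
        rw [mem_filter, mem_Ioc] at hp
        exact Nat.mem_primesLE.mpr ⟨hp.1.2, hp.2⟩
      · intro p hp _
        have := (Nat.mem_primesLE.mp hp).2.pos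
        exact mul_nonneg (by positivity) (Real.log_nonneg (by exact_mod_cast this))
    linarith

lemma step_lower (m : ℕ) (hm : 2 ≤ m) :
    Real.log (Real.log ((m : ℝ) + 1)) - Real.log (Real.log m) - 9 / (m : ℝ) ^ 2
      ≤ Real.log m * (1 / Real.log m - 1 / Real.log ((m : ℝ) + 1)) := by
  have hm0 : (2 : ℝ) ≤ m := by exact_mod_cast hm
  have h1 : 0 < Real.log m := Real.log_pos (by linarith)
  have h2 : 0 < Real.log ((m : ℝ) + 1) := Real.log_pos (by linarith)
  have h12 : Real.log m ≤ Real.log ((m : ℝ) + 1) := Real.log_le_log (by linarith) (by linarith)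
  set v := Real.log (Real.log ((m : ℝ) + 1)) - Real.log (Real.log m) with hv
  have hv0 : 0 ≤ v := by
    rw [hv, sub_nonneg]
    exact Real.log_le_log h1 h12
  have hlog2 : (2 : ℝ) / 3 ≤ Real.log m := by
    have h3 := Real.log_two_gt_d9
    have h4 : Real.log 2 ≤ Real.log m := Real.log_le_log (by norm_num) hm0
    linarith
  have hvm : v ≤ 3 / 2 * (1 / m) := by
    have h3 : v = Real.log (Real.log ((m : ℝ) + 1) / Real.log m) := by
      rw [hv, Real.log_div h2.ne' h1.ne']
    have h4 := Real.log_le_sub_one_of_pos (div_pos h2 h1)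
    have h5 : Real.log ((m : ℝ) + 1) - Real.log m ≤ 1 / m := by
      rw [← Real.log_div (by linarith) (by linarith)]
      have h6 := Real.log_le_sub_one_of_pos (show 0 < ((m : ℝ) + 1) / m by positivity)
      have h7 : ((m : ℝ) + 1) / m - 1 = 1 / m := by field_simp; ring
      linarith
    have h6 : Real.log ((m : ℝ) + 1) / Real.log m - 1
        = (Real.log ((m : ℝ) + 1) - Real.log m) / Real.log m := by field_simp
    rw [h3]
    refine h4.trans ?_
    rw [h6, div_le_iff₀ h1]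
    have h7 : 0 < 1 / (m : ℝ) := by positivity
    nlinarith
  have hm1 : 1 / (m : ℝ) ≤ 1 / 2 := one_div_le_one_div_of_le (by norm_num) hm0
  have hv1 : v ≤ 1 := by linarith
  have hexp : Real.exp (-v) = Real.log m / Real.log ((m : ℝ) + 1) := by
    rw [hv, neg_sub, Real.exp_sub, Real.exp_log h1, Real.exp_log h2]
  have h3 := Real.abs_exp_sub_one_sub_id_le (x := -v) (by rw [abs_neg, abs_of_nonneg hv0]; exact hv1)
  have h4 := (abs_le.mp h3).2
  rw [hexp] at h4
  have h5 : Real.log m * (1 / Real.log m - 1 / Real.log ((m : ℝ) + 1))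
      = 1 - Real.log m / Real.log ((m : ℝ) + 1) := by field_simp
  rw [h5]
  have h6 : v ^ 2 ≤ 9 / (m : ℝ) ^ 2 := by
    have h7 : v ^ 2 ≤ (3 / 2 * (1 / m)) ^ 2 := pow_le_pow_left₀ hv0 hvm 2
    have e8 : (3 / 2 * (1 / (m : ℝ))) ^ 2 = 9 / (m : ℝ) ^ 2 / 4 := by field_simp; ring
    rw [e8] at h7
    have : 0 ≤ 9 / (m : ℝ) ^ 2 := by positivity
    linarith
  have h7 : (-v) ^ 2 = v ^ 2 := by ring
  linarith

lemma sum_inv_sq_Ico (k n : ℕ) (hk : 2 ≤ k) (hkn : k ≤ n) :
    ∑ m ∈ Ico k n, 1 / (m : ℝ) ^ 2 ≤ 1 / ((k : ℝ) - 1) - 1 / ((n : ℝ) - 1) := by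
  induction n, hkn using Nat.le_induction with
  | base => simp
  | succ n hn ih =>
    rw [sum_Ico_succ_top (by omega)]
    have h1 : (2 : ℝ) ≤ n := by exact_mod_cast hk.trans hn
    have h2 : 1 / (n : ℝ) ^ 2 ≤ 1 / ((n : ℝ) - 1) - 1 / (((n + 1 : ℕ) : ℝ) - 1) := by
      push_cast
      rw [show (n : ℝ) + 1 - 1 = n by ring, div_sub_div _ _ (by linarith) (by linarith),
        div_le_div_iff₀ (by positivity) (by nlinarith)]
      nlinarith
    linarith

/-- **Mertens' second theorem, lower bound.** -/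
theorem mertens_second : ∃ C : ℝ, 0 < C ∧ ∀ k n : ℕ, 2 ≤ k → k ≤ n →
    Real.log (Real.log n) - Real.log (Real.log k) - C / Real.log k
      ≤ ∑ p ∈ (Ioc k n).filter Nat.Prime, 1 / (p : ℝ) := by
  obtain ⟨C, hC, hA⟩ := lower_A
  refine ⟨C + 2 + 18, by linarith, ?_⟩
  intro k n hk hkn
  have hk0 : (2 : ℝ) ≤ k := by exact_mod_cast hk
  have hlk : 0 < Real.log k := Real.log_pos (by linarith)
  have hn0 : (2 : ℝ) ≤ n := by exact_mod_cast hk.trans hkn
  have hln : 0 < Real.log n := Real.log_pos (by linarith)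
  have hab := abel (fun p => 1 / (p : ℝ)) k n hk hkn
  have hsum : ∑ p ∈ (Ioc k n).filter Nat.Prime, 1 / (p : ℝ)
      = ∑ p ∈ Nat.primesLE n, 1 / (p : ℝ) - ∑ p ∈ Nat.primesLE k, 1 / (p : ℝ) := by
    rw [eq_sub_iff_add_eq, ← sum_union]
    · congr 1
      ext p
      rw [mem_union, mem_filter, mem_Ioc, Nat.mem_primesLE, Nat.mem_primesLE]
      constructor
      · rintro (⟨h1, h2⟩ | ⟨h1, h2⟩)
        · exact ⟨h1.2, h2⟩
        · exact ⟨h1.trans hkn, h2⟩
      · rintro ⟨h1, h2⟩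
        rcases Nat.lt_or_ge k p with h | h
        · left; exact ⟨⟨h, h1⟩, h2⟩
        · right; exact ⟨h, h2⟩
    · rw [disjoint_left]
      intro p hp hp'
      rw [mem_filter, mem_Ioc] at hp
      have := (Nat.mem_primesLE.mp hp').1
      omega
  rw [hsum, hab]
  have h1 := hA n (hk.trans hkn)
  have h2 : ∑ p ∈ Nat.primesLE k, 1 / (p : ℝ) * Real.log p ≤ Real.log k + 2 := by
    have h3 := sum_log_div_le k (by omega)
    have h4 : Real.log 4 ≤ 2 := by
      have h5 : (4 : ℝ) ≤ Real.exp 2 := by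
        have := Real.exp_one_gt_d9
        have h6 : Real.exp 2 = Real.exp 1 * Real.exp 1 := by rw [← Real.exp_add]; norm_num
        rw [h6]; nlinarith
      calc Real.log 4 ≤ Real.log (Real.exp 2) := Real.log_le_log (by norm_num) h5
        _ = 2 := Real.log_exp 2
    have e : ∑ p ∈ Nat.primesLE k, 1 / (p : ℝ) * Real.log p
        = ∑ p ∈ Nat.primesLE k, Real.log p / p := sum_congr rfl fun p _ => by ring
    rw [e]; linarith
  have h3 : 1 - C / Real.log n
      ≤ (∑ p ∈ Nat.primesLE n, 1 / (p : ℝ) * Real.log p) / Real.log n := by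
    rw [le_div_iff₀ hln]
    have : (1 - C / Real.log n) * Real.log n = Real.log n - C := by field_simp
    linarith
  have h4 : (∑ p ∈ Nat.primesLE k, 1 / (p : ℝ) * Real.log p) / Real.log k
      ≤ 1 + 2 / Real.log k := by
    rw [div_le_iff₀ hlk]
    have : (1 + 2 / Real.log k) * Real.log k = Real.log k + 2 := by field_simp
    linarith
  have h5 : ∀ m ∈ Ico k n, (Real.log (Real.log ((m + 1 : ℕ) : ℝ)) - Real.log (Real.log (m : ℕ)))
      - 9 * (1 / (m : ℝ) ^ 2)
      + C * (1 / Real.log ((m + 1 : ℕ) : ℝ) - 1 / Real.log (m : ℕ))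
      ≤ (∑ p ∈ Nat.primesLE m, 1 / (p : ℝ) * Real.log p)
        * (1 / Real.log m - 1 / Real.log (m + 1)) := by
    intro m hm
    rw [mem_Ico] at hm
    have hm2 : 2 ≤ m := hk.trans hm.1
    have h6 := step_lower m hm2
    have h7 := inv_log_anti m hm2
    have h8 := mul_le_mul_of_nonneg_right (hA m hm2) h7
    push_cast
    have h9 : 9 / (m : ℝ) ^ 2 = 9 * (1 / (m : ℝ) ^ 2) := by ring
    rw [h9] at h6
    nlinarith
  have h6 := sum_le_sum h5
  rw [sum_add_distrib, sum_sub_distrib, ← mul_sum, ← mul_sum,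
    sum_Ico_sub (fun m : ℕ => Real.log (Real.log (m : ℝ))) hkn,
    sum_Ico_sub (fun m : ℕ => 1 / Real.log (m : ℝ)) hkn] at h6
  have h7 := sum_inv_sq_Ico k n hk hkn
  have h8 : 1 / ((k : ℝ) - 1) - 1 / ((n : ℝ) - 1) ≤ 2 / Real.log k := by
    have h9 : 0 ≤ 1 / ((n : ℝ) - 1) := div_nonneg zero_le_one (by linarith)
    have h10 : Real.log k ≤ k - 1 := Real.log_le_sub_one_of_pos (by linarith)
    have h11 : 1 / ((k : ℝ) - 1) ≤ 1 / Real.log k := one_div_le_one_div_of_le hlk h10
    have h12 : 0 < 1 / Real.log k := by positivity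
    have h13 : 2 / Real.log k = 2 * (1 / Real.log k) := by ring
    linarith
  have e1 : (C + 2 + 18) / Real.log k = C * (1 / Real.log k) + 2 / Real.log k
      + 9 * (2 / Real.log k) := by ring
  have e2 : C / Real.log n = C * (1 / Real.log n) := by ring
  rw [e1]
  rw [e2] at h3
  linarith

end Pool.Agent.helper22.PD
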