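import Pool.Agent.helper22.PD.Arith

/-!
# A lower bound of Mertens type
-/

namespace Pool.Agent.helper22.PD

open Finset ArithmeticFunction

/-- Mertens type bound for `Λ`. -/
lemma sum_vonMangoldt_div (n : ℕ) (hn : 1 ≤ n) :
    ∑ d ∈ Icc 1 n, Λ d / d ≤ Real.log n + (Real.log 4 + 4) := by
  have hn0 : (0 : ℝ) < n := by exact_mod_cast hn
  have h1 : ∑ d ∈ Icc 1 n, Λ d * ((n / d : ℕ) : ℝ) ≤ n * Real.log n := by
    have e1 : ∀ d ∈ Icc 1 n, Λ d * ((n / d : ℕ) : ℝ) = ∑ m ∈ Icc 1 n, if d ∣ m then Λ d else 0 := by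
      intro d hd
      rw [← sum_filter, sum_const, nsmul_eq_mul, mul_comm]
      congr 2
      have : #{x ∈ Ioc 0 n | d ∣ x} = n / d := Nat.Ioc_filter_dvd_card_eq_div n d
      rw [← this]
      rfl
    rw [sum_congr rfl e1, sum_comm]
    have e2 : ∀ m ∈ Icc 1 n, (∑ d ∈ Icc 1 n, if d ∣ m then Λ d else 0) ≤ Real.log n := by
      intro m hm
      rw [mem_Icc] at hm
      rw [← sum_filter]
      have e3 : (Icc 1 n).filter (fun d => d ∣ m) = m.divisors := by
        ext d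
        rw [mem_filter, mem_Icc, Nat.mem_divisors]
        constructor
        · rintro ⟨_, h⟩; exact ⟨h, by omega⟩
        · rintro ⟨h, _⟩
          have h1 := Nat.le_of_dvd (by omega) h
          have h2 := Nat.pos_of_dvd_of_pos h (by omega)
          exact ⟨⟨h2, by omega⟩, h⟩
      rw [e3, vonMangoldt_sum]
      exact Real.log_le_log (by exact_mod_cast (by omega : 0 < m)) (by exact_mod_cast hm.2)
    refine (sum_le_sum e2).trans ?_
    rw [sum_const, Nat.card_Icc, nsmul_eq_mul]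
    simp
  have h2 : Chebyshev.psi n ≤ (Real.log 4 + 4) * n := Chebyshev.psi_le_const_mul_self hn0.le
  have h3 : Chebyshev.psi n = ∑ d ∈ Icc 1 n, Λ d := by
    rw [Chebyshev.psi, Nat.floor_natCast]; rfl
  have h4 : ∑ d ∈ Icc 1 n, Λ d * ((n : ℝ) / d - 1) ≤ ∑ d ∈ Icc 1 n, Λ d * ((n / d : ℕ) : ℝ) := by
    refine sum_le_sum fun d hd => mul_le_mul_of_nonneg_left ?_ vonMangoldt_nonneg
    rw [mem_Icc] at hd
    have := Nat.lt_floor_add_one ((n : ℝ) / d)
    rw [Nat.floor_div_eq_div] at this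
    linarith
  have h5 : ∑ d ∈ Icc 1 n, Λ d * ((n : ℝ) / d - 1)
      = n * ∑ d ∈ Icc 1 n, Λ d / d - ∑ d ∈ Icc 1 n, Λ d := by
    rw [mul_sum, ← sum_sub_distrib]
    refine sum_congr rfl fun d _ => ?_
    ring
  have h6 : n * ∑ d ∈ Icc 1 n, Λ d / d ≤ n * (Real.log n + (Real.log 4 + 4)) := by
    nlinarith
  exact le_of_mul_le_mul_left h6 hn0

/-- tails of `∑ Λ(d)/d` over non-primes are small. -/
lemma tail_small (ε : ℝ) (hε : 0 < ε) : ∃ T₀ : ℕ, ∀ T ≥ T₀, ∀ M : ℕ,
    ∑ d ∈ (Ioc T M).filter (fun d => ¬ d.Prime), Λ d / d ≤ ε := by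
  have hs := ArithmeticFunction.vonMangoldt.summable_residueClass_non_primes_div (q := 1) 0
  rw [summable_iff_vanishing_norm] at hs
  obtain ⟨s, hs⟩ := hs ε hε
  refine ⟨s.sup id, fun T hT M => ?_⟩
  have h1 := hs (Ioc T M) (by
    rw [disjoint_left]
    intro d hd hds
    have h2 : d ≤ s.sup id := Finset.le_sup (f := id) hds
    rw [mem_Ioc] at hd
    omega)
  have h2 : ∑ d ∈ (Ioc T M).filter (fun d => ¬ d.Prime), Λ d / d
      = ∑ n ∈ Ioc T M, (if n.Prime then 0 else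
        ArithmeticFunction.vonMangoldt.residueClass (0 : ZMod 1) n) / n := by
    rw [sum_filter]
    refine sum_congr rfl fun d _ => ?_
    have h3 : ArithmeticFunction.vonMangoldt.residueClass (0 : ZMod 1) d = Λ d := by
      unfold ArithmeticFunction.vonMangoldt.residueClass
      rw [Set.indicator_of_mem]
      exact Subsingleton.elim _ _
    rw [h3]
    split_ifs <;> simp
  rw [h2]
  exact (Real.le_norm_self _).trans h1.le

lemma log_factorial_eq (n : ℕ) :
    ∑ d ∈ Icc 1 n, Λ d * ((n / d : ℕ) : ℝ) = Real.log (n.factorial : ℝ) := by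
  have e1 : ∀ d ∈ Icc 1 n, Λ d * ((n / d : ℕ) : ℝ) = ∑ m ∈ Icc 1 n, if d ∣ m then Λ d else 0 := by
    intro d hd
    rw [← sum_filter, sum_const, nsmul_eq_mul, mul_comm]
    congr 2
    have : #{x ∈ Ioc 0 n | d ∣ x} = n / d := Nat.Ioc_filter_dvd_card_eq_div n d
    rw [← this]
    rfl
  rw [sum_congr rfl e1, sum_comm]
  have e2 : ∀ m ∈ Icc 1 n, (∑ d ∈ Icc 1 n, if d ∣ m then Λ d else 0) = Real.log m := by
    intro m hm
    rw [mem_Icc] at hm
    rw [← sum_filter]
    have e3 : (Icc 1 n).filter (fun d => d ∣ m) = m.divisors := by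
      ext d
      rw [mem_filter, mem_Icc, Nat.mem_divisors]
      constructor
      · rintro ⟨_, h⟩; exact ⟨h, by omega⟩
      · rintro ⟨h, _⟩
        have h1 := Nat.le_of_dvd (by omega) h
        have h2 := Nat.pos_of_dvd_of_pos h (by omega)
        exact ⟨⟨h2, by omega⟩, h⟩
    rw [e3, vonMangoldt_sum]
  rw [sum_congr rfl e2]
  clear e1 e2
  induction n with
  | zero => simp
  | succ n ih =>
    rw [sum_Icc_succ_top (by omega), ih, Nat.factorial_succ]
    push_cast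
    rw [Real.log_mul (by positivity) (by positivity), add_comm]

lemma sum_vonMangoldt_div_ge (n : ℕ) (hn : 1 ≤ n) :
    Real.log n - 1 ≤ ∑ d ∈ Icc 1 n, Λ d / d := by
  have hn0 : (0 : ℝ) < n := by exact_mod_cast hn
  have h1 := Stirling.le_log_factorial_stirling (n := n) (by omega)
  have h2 : 0 ≤ Real.log n := Real.log_nonneg (by exact_mod_cast hn)
  have h3 : 0 ≤ Real.log (2 * Real.pi) := Real.log_nonneg (by nlinarith [Real.pi_gt_three])
  have h4 : ∑ d ∈ Icc 1 n, Λ d * ((n / d : ℕ) : ℝ) ≤ ∑ d ∈ Icc 1 n, n * (Λ d / d) := by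
    refine sum_le_sum fun d hd => ?_
    rw [mem_Icc] at hd
    have h5 : ((n / d : ℕ) : ℝ) ≤ n / d := Nat.cast_div_le
    calc Λ d * ((n / d : ℕ) : ℝ) ≤ Λ d * (n / d) :=
          mul_le_mul_of_nonneg_left h5 vonMangoldt_nonneg
      _ = _ := by ring
  rw [← mul_sum, log_factorial_eq] at h4
  have h5 : (n : ℝ) * (Real.log n - 1) ≤ n * ∑ d ∈ Icc 1 n, Λ d / d := by nlinarith
  exact le_of_mul_le_mul_left h5 hn0

/-- **Mertens type lower bound** for the primes in `(y, x]`. -/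
theorem mertens_lower : ∃ T₀ : ℕ, ∀ y ≥ T₀, ∀ x ≥ y,
    Real.log x - Real.log y - 8 ≤ ∑ p ∈ (Ioc y x).filter Nat.Prime, Real.log p / p := by
  obtain ⟨T₀, hT₀⟩ := tail_small 1 one_pos
  refine ⟨max T₀ 1, ?_⟩
  intro y hy x hx
  have hy0 : T₀ ≤ y := (le_max_left _ _).trans hy
  have hy1 : 1 ≤ y := (le_max_right _ _).trans hy
  have h1 := sum_vonMangoldt_div_ge x (hy1.trans hx)
  have h2 := sum_vonMangoldt_div y hy1
  have h3 := hT₀ y hy0 x
  have e1 : ∑ d ∈ Icc 1 x, Λ d / d = ∑ d ∈ Icc 1 y, Λ d / d + ∑ d ∈ Ioc y x, Λ d / d := by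
    rw [← sum_union]
    · congr 1
      ext d
      rw [mem_union, mem_Icc, mem_Icc, mem_Ioc]
      omega
    · rw [disjoint_left]
      intro d hd hd'
      rw [mem_Icc] at hd
      rw [mem_Ioc] at hd'
      omega
  have e2 := sum_filter_add_sum_filter_not (Ioc y x) Nat.Prime (fun d => Λ d / (d : ℝ))
  have e3 : ∑ d ∈ (Ioc y x).filter Nat.Prime, Λ d / (d : ℝ)
      = ∑ p ∈ (Ioc y x).filter Nat.Prime, Real.log p / p := by
    refine sum_congr rfl fun p hp => ?_
    rw [vonMangoldt_apply_prime (mem_filter.mp hp).2]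
  have h4 : Real.log 4 ≤ 2 := by
    have h5 : (4 : ℝ) ≤ Real.exp 2 := by
      have := Real.exp_one_gt_d9
      have h6 : Real.exp 2 = Real.exp 1 * Real.exp 1 := by rw [← Real.exp_add]; norm_num
      rw [h6]; nlinarith
    calc Real.log 4 ≤ Real.log (Real.exp 2) := Real.log_le_log (by norm_num) h5
      _ = 2 := Real.log_exp 2
  rw [← e3]
  linarith

end Pool.Agent.helper22.PD
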